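import Mathlib

set_option autoImplicit false

namespace Pool.Agent.H.MP_2c613a_co

variable {V : Type} [Fintype V] [DecidableEq V] {r : ℕ}

/-- the `i`-th side -/
def Side (side : V → Fin r) (i : Fin r) : Finset V := Finset.univ.filter (fun v => side v = i)

/-- an intersecting `r`-partite hypergraph in which every vertex lies in an edge -/
def Hyp (side : V → Fin r) (E : Finset (Finset V)) : Prop :=
  (∀ e ∈ E, ∀ i, (e ∩ Side side i).card = 1) ∧ (∀ v, ∃ e ∈ E, v ∈ e) ∧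
    ∀ e ∈ E, ∀ f ∈ E, (e ∩ f).Nonempty

/-- a non-trivial vertex cover -/
def NT (side : V → Fin r) (E : Finset (Finset V)) (C : Finset V) : Prop :=
  (∀ e ∈ E, (e ∩ C).Nonempty) ∧ (∀ e ∈ E, ¬ e ⊆ C) ∧ ∀ i, ¬ Side side i ⊆ C

end Pool.Agent.H.MP_2c613a_co
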